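import Mathlib
import Pool.Agent.Y633.Gen.Closure

/-! # The live gates when the wires crossing the cuts are removed -/

open Finset

set_option linter.unusedSectionVars false

namespace Pool.Agent.Y633.GenK

open Pool.Agent.Y633.Dep Pool.Agent.Y633.Wire Pool.Agent.Y633.Gen

variable {n q : ℕ}

section

variable (C : Circuit n q) (E : Finset (Fin C.size)) (time wt : Fin C.size → ℕ)
  (A : Finset ℕ) (T : ℕ → ℕ) (W Q : ℕ)

/-- In the middle of a big piece. -/
def MidK (v : Fin C.size) : Prop :=
  BigP time A T Q v ∧ ¬ Upper time wt A T W v ∧ ¬ Lower time wt A T W v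

/-- The wires kept. -/
def KeepK (j i : Fin C.size) : Prop :=
  j ∉ E ∧ MidK C time wt A T W Q j ∧ MidK C time wt A T W Q i ∧ Same time A T j i

/-- The gates that may be live. -/
def LivePK (W₂ : ℕ) (P : Finset ℕ) (ℓ : Fin C.size → ℕ) (v : Fin C.size) : Prop :=
  (BigP time A T Q v ∧ Upper time wt A T W v) ∨
  (¬ BigP time A T Q v ∧ ∃ j, Same time A T j v ∧ cumL time wt (time j) / W₂ ∈ P) ∨
  (MidK C time wt A T W Q v ∧ ℓ v ≠ 0)

variable {C E time wt A T W Q}

/-- A wire from a gate that is not cut stays in its piece. -/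
lemma same_of_wire (htime : ∀ i a j, C.src i a = Sum.inr j → j ∉ E → time j < time i)
    (R : Finset (Fin C.size)) (hER : E ⊆ R)
    (hcut : ∀ i a j, C.src i a = Sum.inr j → j ∉ E → Same time A T j i) {i : Fin C.size}
    {a : Fin (C.arity i)} {u : Fin C.size} (h : C.src i a = Sum.inr u) (hu : u ∉ R) :
    time u < time i ∧ Same time A T u i :=
  ⟨htime i a u h fun h => hu (hER h), hcut i a u h fun h => hu (hER h)⟩

theorem reached_live (htime : ∀ i a j, C.src i a = Sum.inr j → j ∉ E → time j < time i)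
    (hT : ∀ β ∈ A, cumW time wt (T β) / W = β)
    (R : Finset (Fin C.size)) (hER : E ⊆ R)
    (hcut : ∀ i a j, C.src i a = Sum.inr j → j ∉ E → Same time A T j i)
    (G : Finset (Fin n)) (Rc : Finset (Fin C.size)) (ℓ : Fin C.size → ℕ)
    (hℓ : IsWt (midC C (MidK C time wt A T W Q) (KeepK C E time wt A T W Q)) G Rc ℓ)
    (hRc : ∀ v ∈ Rc, ℓ v ≠ 0 → v ∈ R) (W₂ : ℕ) (P : Finset ℕ)
    (hG1 : ∀ v a g, C.src v a = Sum.inl (Sum.inl g) → g ∈ G → BigP time A T Q v →
      ¬ Lower time wt A T W v)
    (hG2 : ∀ v a g, C.src v a = Sum.inl (Sum.inl g) → g ∈ G → ¬ BigP time A T Q v →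
      cumL time wt (time v) / W₂ ∈ P) (v : Fin C.size) (hv : Reached C G R v) :
    LivePK C time wt A T W Q W₂ P ℓ v := by
  induction hv with
  | input i a g h hg =>
    by_cases hbig : BigP time A T Q i
    · have hlow := hG1 i a g h hg hbig
      by_cases hup : Upper time wt A T W i
      · exact Or.inl ⟨hbig, hup⟩
      · refine Or.inr (Or.inr ⟨⟨hbig, hup, hlow⟩, ?_⟩)
        have h1 : 1 ≤ ℓ i := by
          rw [hℓ i]
          calc 1 = swt G Rc ℓ
                ((midC C (MidK C time wt A T W Q) (KeepK C E time wt A T W Q)).src i a) := by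
                rw [(midC_inl C _ _ i a g).2 ⟨h, hbig, hup, hlow⟩]
                simp only [swt, hg, if_true]
            _ ≤ _ := single_le_sum (f := fun a => swt G Rc ℓ
                ((midC C (MidK C time wt A T W Q) (KeepK C E time wt A T W Q)).src i a))
                (fun _ _ => Nat.zero_le _) (mem_univ a)
        omega
    · exact Or.inr (Or.inl ⟨hbig, i, fun β _ => Iff.rfl, hG2 i a g h hg hbig⟩)
  | gate i a u h hu hr ih =>
    obtain ⟨hlt, hsame⟩ := same_of_wire htime R hER hcut h hu
    rcases ih with ⟨h1, h2⟩ | ⟨h1, j, h2, h3⟩ | ⟨h1, h2⟩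
    · exact Or.inl ⟨hsame.big h1, upper_step hT h2 hsame hlt.le⟩
    · exact Or.inr (Or.inl ⟨fun h => h1 (hsame.symm.big h), j, h2.trans hsame, h3⟩)
    · have hbig : BigP time A T Q i := hsame.big h1.1
      have hlow : ¬ Lower time wt A T W i := fun h =>
        h1.2.2 (lower_step hT h hsame hlt.le)
      by_cases hup : Upper time wt A T W i
      · exact Or.inl ⟨hbig, hup⟩
      · refine Or.inr (Or.inr ⟨⟨hbig, hup, hlow⟩, ?_⟩)
        have huRc : u ∉ Rc := fun h => hu (hRc u h h2)
        have hk : KeepK C E time wt A T W Q u i :=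
          ⟨fun h => hu (hER h), h1, ⟨hbig, hup, hlow⟩, hsame⟩
        have h1 : ℓ u ≤ ℓ i := by
          rw [hℓ i]
          calc ℓ u = swt G Rc ℓ
                ((midC C (MidK C time wt A T W Q) (KeepK C E time wt A T W Q)).src i a) := by
                rw [(midC_inr C _ _ i a u).2 ⟨h, hk⟩]
                simp only [swt, huRc, if_false]
            _ ≤ _ := single_le_sum (f := fun a => swt G Rc ℓ
                ((midC C (MidK C time wt A T W Q) (KeepK C E time wt A T W Q)).src i a))
                (fun _ _ => Nat.zero_le _) (mem_univ a)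
        omega

open Classical in
/-- The number of live wires that branch. -/
theorem leaf_bound (htime : ∀ i a j, C.src i a = Sum.inr j → j ∉ E → time j < time i)
    (hwt : ∀ v, C.arity v + C.fanOut v ≤ wt v)
    (hT : ∀ β ∈ A, cumW time wt (T β) / W = β)
    (R : Finset (Fin C.size)) (hER : E ⊆ R)
    (hcut : ∀ i a j, C.src i a = Sum.inr j → j ∉ E → Same time A T j i)
    (G : Finset (Fin n)) (Rc : Finset (Fin C.size)) (ℓ : Fin C.size → ℕ)
    (hℓ : IsWt (midC C (MidK C time wt A T W Q) (KeepK C E time wt A T W Q)) G Rc ℓ)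
    (hRc : ∀ v ∈ Rc, ℓ v ≠ 0 → v ∈ R) (W₂ : ℕ) (P : Finset ℕ)
    (hG1 : ∀ v a g, C.src v a = Sum.inl (Sum.inl g) → g ∈ G → BigP time A T Q v →
      ¬ Lower time wt A T W v)
    (hG2 : ∀ v a g, C.src v a = Sum.inl (Sum.inl g) → g ∈ G → ¬ BigP time A T Q v →
      cumL time wt (time v) / W₂ ∈ P) :
    (leafWires C G R).card ≤ ∑ g ∈ G, inFan C g +
      (3 * ∑ v ∈ univ.filter (fun v => BigP time A T Q v ∧ Upper time wt A T W v), wt v +
      ∑ v ∈ univ.filter (fun v => ¬ BigP time A T Q v ∧
        ∃ j, Same time A T j v ∧ cumL time wt (time j) / W₂ ∈ P), wt v +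
      ∑ j ∈ univ.filter (fun j : Fin C.size => j ∉ Rc ∧
        2 ≤ (midC C (MidK C time wt A T W Q) (KeepK C E time wt A T W Q)).fanOut j),
        (midC C (MidK C time wt A T W Q) (KeepK C E time wt A T W Q)).fanOut j * ℓ j) := by
  obtain ⟨C', hC'⟩ : ∃ f : Fin C.size → ℕ, f = fun j =>
    (midC C (MidK C time wt A T W Q) (KeepK C E time wt A T W Q)).fanOut j := ⟨_, rfl⟩
  have hfo : ∀ j, (midC C (MidK C time wt A T W Q) (KeepK C E time wt A T W Q)).fanOut j = C' j := by
    intro j; rw [hC']
  simp only [hfo]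
  refine (leafWires_card_le G R (univ.filter fun u => u ∉ R ∧ 2 ≤ C.fanOut u ∧
    LivePK C time wt A T W Q W₂ P ℓ u) ?_).trans (Nat.add_le_add_left ?_ _)
  · intro u h1 h2 h3
    exact mem_filter.2 ⟨mem_univ _, h1, h2,
      reached_live htime hT R hER hcut G Rc ℓ hℓ hRc W₂ P hG1 hG2 u h3⟩
  -- wires into the upper ends
  let U : Finset (Fin C.size) :=
    univ.filter (fun v => BigP time A T Q v ∧ Upper time wt A T W v)
  let Sm : Finset (Fin C.size) := univ.filter (fun v => ¬ BigP time A T Q v ∧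
        ∃ j, Same time A T j v ∧ cumL time wt (time j) / W₂ ∈ P)
  let F : Finset (Fin C.size) := univ.filter (fun j : Fin C.size => j ∉ Rc ∧ 2 ≤ C' j)
  let aU : Fin C.size → ℕ := fun u =>
    ∑ i ∈ U, (univ.filter fun a => C.src i a = Sum.inr u).card
  have haU : ∑ u, aU u ≤ ∑ i ∈ U, C.arity i := by
    simp only [aU]
    rw [sum_comm]
    apply sum_le_sum
    intro i _
    rw [← card_biUnion]
    · refine (card_le_univ _).trans ?_
      simp
    · intro j _ j' _ hne
      rw [Function.onFun, disjoint_left]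
      intro a ha ha'
      simp only [mem_filter, mem_univ, true_and] at ha ha'
      rw [ha] at ha'
      exact hne (Sum.inr_injective ha')
  have hpt : ∀ u ∈ univ.filter (fun u => u ∉ R ∧ 2 ≤ C.fanOut u ∧
      LivePK C time wt A T W Q W₂ P ℓ u), C.fanOut u ≤
      (if u ∈ U then C.fanOut u else 0) + (if u ∈ Sm then C.fanOut u else 0) + 2 * aU u +
        (if u ∈ F then C' u * ℓ u else 0) := by
    intro u hu
    obtain ⟨huR, hf2, hlive⟩ := (mem_filter.1 hu).2
    rcases hlive with h | h | ⟨hmid, hℓu⟩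
    · rw [if_pos (show u ∈ U from mem_filter.2 ⟨mem_univ _, h⟩)]
      omega
    · rw [if_pos (show u ∈ Sm from mem_filter.2 ⟨mem_univ _, h⟩)]
      omega
    · have hsplit : C.fanOut u ≤ aU u + C' u := by
        have h1 : C.fanOut u ≤ ∑ i, ((if i ∈ U then
            (univ.filter fun a => C.src i a = Sum.inr u).card else 0) +
            (univ.filter fun a : Fin (C.arity i) =>
              (midC C (MidK C time wt A T W Q) (KeepK C E time wt A T W Q)).src i a = Sum.inr u).card) := by
          unfold Circuit.fanOut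
          apply sum_le_sum
          intro i _
          by_cases hiU : i ∈ U
          · rw [if_pos hiU]
            exact Nat.le_add_right _ _
          · rw [if_neg hiU, zero_add]
            apply card_le_card
            intro a ha
            have h2 := (mem_filter.1 ha).2
            obtain ⟨hlt, hsame⟩ := same_of_wire htime R hER hcut h2 huR
            refine mem_filter.2 ⟨mem_univ _, (midC_inr C _ _ i a u).2 ⟨h2, fun h => huR (hER h),
              hmid, ⟨hsame.big hmid.1, ?_, ?_⟩, hsame⟩⟩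
            · intro h3
              exact hiU (mem_filter.2 ⟨mem_univ _, hsame.big hmid.1, h3⟩)
            · intro h3
              exact hmid.2.2 (lower_step hT h3 hsame hlt.le)
        refine h1.trans (le_of_eq ?_)
        rw [sum_add_distrib, ← sum_filter, hC']
        congr 1
        apply sum_congr _ (fun _ _ => rfl)
        ext i
        simp
      have huRc : u ∉ Rc := fun h => huR (hRc u h hℓu)
      by_cases hk : 2 ≤ C' u
      · rw [if_pos (show u ∈ F from mem_filter.2 ⟨mem_univ _, huRc, hk⟩)]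
        have : C' u * 1 ≤ C' u * ℓ u := Nat.mul_le_mul_left _ (by omega)
        omega
      · omega
  refine (sum_le_sum hpt).trans ?_
  refine (sum_le_sum_of_subset (subset_univ _)).trans ?_
  rw [sum_add_distrib, sum_add_distrib, sum_add_distrib, ← mul_sum]
  have e1 : ∑ u, (if u ∈ U then C.fanOut u else 0) = ∑ u ∈ U, C.fanOut u := by
    rw [← sum_filter]
    apply sum_congr _ (fun _ _ => rfl)
    ext i; simp
  have e2 : ∑ u, (if u ∈ Sm then C.fanOut u else 0) = ∑ u ∈ Sm, C.fanOut u := by
    rw [← sum_filter]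
    apply sum_congr _ (fun _ _ => rfl)
    ext i; simp
  have e3 : ∑ u, (if u ∈ F then C' u * ℓ u else 0) = ∑ u ∈ F, C' u * ℓ u := by
    rw [← sum_filter]
    apply sum_congr _ (fun _ _ => rfl)
    ext i; simp
  rw [e1, e2, e3]
  have f1 : ∑ v ∈ U, C.arity v + ∑ v ∈ U, C.fanOut v ≤ ∑ v ∈ U, wt v := by
    rw [← sum_add_distrib]
    exact sum_le_sum fun v _ => hwt v
  have f2 : ∑ v ∈ Sm, C.fanOut v ≤ ∑ v ∈ Sm, wt v := by
    apply sum_le_sum
    intro v _
    have := hwt v
    omega
  change _ ≤ 3 * ∑ v ∈ U, wt v + ∑ v ∈ Sm, wt v + ∑ j ∈ F, C' j * ℓ j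
  omega

end

end Pool.Agent.Y633.GenK
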