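import Mathlib
import Pool.Agent.Y633.Gen.Comb
import Pool.Agent.Y633.GenK.Closure

/-! # Live inputs and a small cut set, when the wires crossing the cuts are removed -/

open Finset

set_option linter.unusedSectionVars false

namespace Pool.Agent.Y633.GenK

open Pool.Agent.Y633.Dep Pool.Agent.Y633.Wire Pool.Agent.Y633.Gen Pool.Agent.Y633.Lay

theorem core (c C₁ h : ℕ) (hc : 1 ≤ c) (hC₁ : 1 ≤ C₁) (r w₂ Q b M₀ B : ℕ) (hr : r = 8 * c)
    (hw₂ : w₂ = 24 * C₁ * r) (hQ : Q = 384 * C₁ * c) (hb : b = 4 * c * w₂ + 1)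
    (hM₀ : M₀ = 8 * c * w₂ * (Q + 1)) (hB : B = 2 ^ b) :
    ∃ Γ₀ N₀ : ℕ, 1 ≤ Γ₀ ∧ ∀ N q : ℕ, N₀ ≤ N → ∀ W₂ W : ℕ, W₂ = N / w₂ → W = W₂ / (Q + 1) →
      ∀ C : Circuit N q, C.numWires ≤ c * N →
      ∀ (E : Finset (Fin C.size)) (time wt : Fin C.size → ℕ) (A : Finset ℕ) (T : ℕ → ℕ),
        (∀ v, C.arity v + C.fanOut v ≤ wt v) → ∑ v, wt v ≤ 2 * c * N →
        (∀ β ∈ A, cumW time wt (T β) / W = β) →
        (∀ i a j, C.src i a = Sum.inr j → j ∉ E → time j < time i) →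
        (∀ i a j, C.src i a = Sum.inr j → j ∉ E → Same time A T j i) →
        (midC C (MidK C time wt A T W Q) (KeepK C E time wt A T W Q)).SharingDepthLE ∅ h →
        ∃ (G : Finset (Fin N)) (R : Finset (Fin C.size)), C.out ∈ R ∧ E ⊆ R ∧
          C₁ * (leafWires C G R).card ≤ N ∧
          2 * (C₁ * ((R \ E).card + Nat.log 2 N + 1)) ≤ G.card ∧ C₁ * G.card ≤ N ∧
          N ≤ Γ₀ * G.card := by
  classical
  have hr1 : 1 ≤ r := by omega
  have hw₂1 : 24 ≤ w₂ := by rw [hw₂]; exact num2 hC₁ hr1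
  have hQ1 : 1 ≤ Q := by rw [hQ]; exact num3 hC₁ hc
  have hB1 : 1 ≤ B := by rw [hB]; exact Nat.one_le_two_pow
  obtain ⟨ee, hee⟩ : ∃ ee : ℕ, ee = 64 * C₁ * B * (h + 1) := ⟨_, rfl⟩
  obtain ⟨Γ, hΓ⟩ : ∃ Γ : ℕ → ℕ, Γ = fun x => cΓ C₁ r B h x := ⟨_, rfl⟩
  obtain ⟨Y, hY⟩ := mid_choice c ee h (fun x => 16 * C₁ * c * Γ x)
  obtain ⟨Z, hZ⟩ : ∃ Z, Z = 16 * C₁ * Γ Y := ⟨_, rfl⟩
  refine ⟨2 * Z + 1, 16 * (Z + 1) ^ 2 + 2 * w₂ * (Q + 1) + 4 * B + 16, by omega, ?_⟩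
  intro N q hN W₂ W hW₂ hW C hwires E time wt A T hwt htotal hTW htime hcut hsd
  -- widths
  have hwQ : w₂ * (Q + 1) ≤ N := by
    have : 2 * w₂ * (Q + 1) = 2 * (w₂ * (Q + 1)) := by ring
    omega
  have hw₂N : w₂ ≤ N := le_trans (Nat.le_mul_of_pos_right _ (by omega)) hwQ
  have hf1 : w₂ * W₂ ≤ N := by rw [hW₂]; exact Nat.mul_div_le _ _
  have hf2 : N ≤ 2 * w₂ * W₂ := by rw [hW₂]; exact half_up (by omega) hw₂N
  have hQW₂ : Q + 1 ≤ W₂ := by
    rw [hW₂, Nat.le_div_iff_mul_le (by omega)]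
    calc (Q + 1) * w₂ = w₂ * (Q + 1) := mul_comm _ _
      _ ≤ N := hwQ
  have hf3 : (Q + 1) * W ≤ W₂ := by rw [hW]; exact Nat.mul_div_le _ _
  have hW1 : 1 ≤ W := by
    rw [hW]
    exact (Nat.one_le_div_iff (by omega)).2 hQW₂
  have hf4 : W₂ ≤ 2 * (Q + 1) * W := by rw [hW]; exact half_up (by omega) hQW₂
  have hW₂1 : 1 ≤ W₂ := by omega
  have hcumM : ∀ τ, cumW time wt τ / W ≤ M₀ := by
    intro τ
    apply Nat.div_le_of_le_mul
    calc cumW time wt τ ≤ ∑ v, wt v := cumW_le_total _ _ _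
      _ ≤ 2 * c * N := htotal
      _ ≤ 2 * c * (2 * w₂ * (2 * (Q + 1) * W)) := by
          apply Nat.mul_le_mul_left
          exact hf2.trans (Nat.mul_le_mul_left _ hf4)
      _ = W * M₀ := by rw [hM₀]; ring
  have hγ : ∀ v, cumL time wt (time v) / W₂ < b := by
    intro v
    have h1 : cumL time wt (time v) / W₂ ≤ 4 * c * w₂ := by
      apply Nat.div_le_of_le_mul
      calc cumL time wt (time v) ≤ ∑ v, wt v := cumL_le_total _ _ _
        _ ≤ 2 * c * N := htotal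
        _ ≤ 2 * c * (2 * w₂ * W₂) := Nat.mul_le_mul_left _ hf2
        _ = W₂ * (4 * c * w₂) := by ring
    omega
  have hAM : ∀ β ∈ A, β ≤ M₀ := by
    intro β hβ
    rw [← hTW β hβ]
    exact hcumM _
  have hwires' : (midC C (MidK C time wt A T W Q) (KeepK C E time wt A T W Q)).numWires ≤
    c * N := hwires
  obtain ⟨x, y, Rc, hx1, hxY, hΦ, hchoice⟩ := hY N
    (midC C (MidK C time wt A T W Q) (KeepK C E time wt A T W Q)) hwires' hsd
  -- the eligible inputs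
  obtain ⟨n₀, hn₀⟩ : ∃ n₀, n₀ = N / (2 * B) := ⟨_, rfl⟩
  have h2B : 2 * B ≤ N := by omega
  have hn₀1 : 1 ≤ n₀ := by rw [hn₀]; exact (Nat.one_le_div_iff (by omega)).2 h2B
  have hn₀a : 2 * (B * n₀) ≤ N := by
    have := Nat.mul_div_le N (2 * B)
    rw [← hn₀] at this
    calc 2 * (B * n₀) = 2 * B * n₀ := by ring
      _ ≤ N := this
  have hn₀b : N ≤ 4 * B * n₀ := by
    have := half_up (N := N) (w := 2 * B) (by omega) h2B
    rw [← hn₀] at this
    calc N ≤ 2 * (2 * B) * n₀ := this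
      _ = 4 * B * n₀ := by ring
  obtain ⟨Lc, hLc⟩ : ∃ Lc : Finset (Fin C.size), Lc = univ.filter fun v =>
    BigP time A T Q v ∧ Lower time wt A T W v := ⟨_, rfl⟩
  obtain ⟨Sm, hSm⟩ : ∃ Sm : Finset (Fin C.size), Sm = univ.filter fun v =>
    ¬ BigP time A T Q v := ⟨_, rfl⟩
  -- ends of big pieces
  have hends : ∀ X : ℕ, X ≤ (M₀ / Q + 1) * W → 24 * C₁ * X ≤ N := by
    intro X hX
    have h1 : Q * (M₀ / Q * W) ≤ 8 * c * N := by
      calc Q * (M₀ / Q * W) = (M₀ / Q * Q) * W := by ring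
        _ ≤ M₀ * W := Nat.mul_le_mul_right _ (Nat.div_mul_le_self _ _)
        _ = 8 * c * (w₂ * ((Q + 1) * W)) := by rw [hM₀]; ring
        _ ≤ 8 * c * (w₂ * W₂) := by gcongr
        _ ≤ 8 * c * N := by gcongr
    have h2 : 48 * C₁ * (M₀ / Q * W) ≤ N := by
      have h3 : (8 * c) * (48 * C₁ * (M₀ / Q * W)) ≤ (8 * c) * N := by
        calc (8 * c) * (48 * C₁ * (M₀ / Q * W)) = Q * (M₀ / Q * W) := by rw [hQ]; ring
          _ ≤ 8 * c * N := h1
      exact Nat.le_of_mul_le_mul_left h3 (by omega)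
    have h4 : 48 * C₁ * W ≤ N := by
      have h5 : 48 * C₁ ≤ w₂ * (Q + 1) := by
        rw [hQ]
        have h6 : 48 * C₁ ≤ 384 * C₁ * c + 1 := num1 hc
        calc 48 * C₁ ≤ 384 * C₁ * c + 1 := h6
          _ ≤ w₂ * (384 * C₁ * c + 1) := Nat.le_mul_of_pos_left _ (by omega)
      calc 48 * C₁ * W ≤ (w₂ * (Q + 1)) * W := Nat.mul_le_mul_right _ h5
        _ = w₂ * ((Q + 1) * W) := by ring
        _ ≤ w₂ * W₂ := Nat.mul_le_mul_left _ hf3
        _ ≤ N := hf1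
    have h5 : 48 * C₁ * X ≤ 48 * C₁ * ((M₀ / Q + 1) * W) := Nat.mul_le_mul_left _ hX
    have h6 : 48 * C₁ * ((M₀ / Q + 1) * W) = 48 * C₁ * (M₀ / Q * W) + 48 * C₁ * W := by ring
    have h7 : 48 * C₁ * X = 2 * (24 * C₁ * X) := by ring
    omega
  have hlow := hends _ (lower_wt (time := time) (wt := wt) (A := A) (T := T) (W := W) (Q := Q)
    M₀ hW1 hQ1 hTW hAM)
  have hup := hends _ (upper_wt (time := time) (wt := wt) (A := A) (T := T) (W := W) (Q := Q)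
    M₀ hW1 hQ1 hTW hAM)
  have hLcN : 24 * ∑ v ∈ Lc, C.arity v ≤ N := by
    have h1 : ∑ v ∈ Lc, C.arity v ≤ ∑ v ∈ Lc, wt v :=
      sum_le_sum fun v _ => (Nat.le_add_right _ _).trans (hwt v)
    have h2 : 24 * ∑ v ∈ Lc, wt v ≤ 24 * C₁ * ∑ v ∈ Lc, wt v :=
      Nat.mul_le_mul_right _ (by omega)
    rw [hLc] at h1 h2 ⊢
    omega
  have hcount : C.numWires + (r + 1) * (∑ v ∈ Lc, C.arity v) + (r + 1) * (2 ^ b * n₀) ≤
      (r + 1) * N := by
    rw [← hB]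
    have h1 : 8 * C.numWires ≤ r * N := by
      calc 8 * C.numWires ≤ 8 * (c * N) := Nat.mul_le_mul_left _ hwires
        _ = r * N := by rw [hr]; ring
    have h3 : 24 * ((r + 1) * (∑ v ∈ Lc, C.arity v)) ≤ (r + 1) * N := by
      calc 24 * ((r + 1) * (∑ v ∈ Lc, C.arity v)) = (r + 1) * (24 * ∑ v ∈ Lc, C.arity v) := by
            ring
        _ ≤ (r + 1) * N := Nat.mul_le_mul_left _ hLcN
    have h4 : 2 * ((r + 1) * (B * n₀)) ≤ (r + 1) * N := by
      calc 2 * ((r + 1) * (B * n₀)) = (r + 1) * (2 * (B * n₀)) := by ring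
        _ ≤ (r + 1) * N := Nat.mul_le_mul_left _ hn₀a
    have h8 : r * N ≤ (r + 1) * N := Nat.mul_le_mul_right _ (by omega)
    omega
  obtain ⟨Pset, G₀, hPcard, hG₀card, hG₀in, hG₀1, hG₀2⟩ := exists_G0 C r b n₀
    (fun v => cumL time wt (time v) / W₂) hγ Lc Sm hn₀1 hcount
  -- the live inputs
  obtain ⟨Γx, hΓx⟩ : ∃ Γx, Γx = Γ x := ⟨_, rfl⟩
  have hΓx' : Γx = 64 * C₁ * (r + 1) * B * (2 * x) ^ h := by rw [hΓx, hΓ]; rfl
  have hΓY : Γx ≤ Γ Y := by rw [hΓx, hΓ]; exact cΓ_mono hxY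
  have hpow1 : 1 ≤ (2 * x) ^ h := Nat.one_le_pow _ _ (by omega)
  have hΓbig : 64 * C₁ * (r + 1) * B ≤ Γx := by
    rw [hΓx']; exact Nat.le_mul_of_pos_right _ hpow1
  have hΓx1 : 1 ≤ Γx := by
    refine le_trans ?_ hΓbig
    apply Nat.succ_le_of_lt
    positivity
  have hΓZ : 16 * C₁ * Γx ≤ Z := by
    rw [hZ]
    exact Nat.mul_le_mul_left _ hΓY
  have hZN : Z ≤ N := by
    have := num5 Z
    omega
  have hΓN : Γx ≤ N := by
    have : Γx ≤ 16 * C₁ * Γx := Nat.le_mul_of_pos_left _ (by omega)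
    omega
  obtain ⟨g₀, hg₀⟩ : ∃ g₀, g₀ = N / Γx := ⟨_, rfl⟩
  have hg₀a : Γx * g₀ ≤ N := by rw [hg₀]; exact Nat.mul_div_le _ _
  have hg₀b : N ≤ 2 * Γx * g₀ := by rw [hg₀]; exact half_up hΓx1 hΓN
  have hg₀n : 2 * g₀ ≤ n₀ := by
    have h1 : 4 * B * (2 * g₀) ≤ 4 * B * n₀ := by
      calc 4 * B * (2 * g₀) = (8 * B) * g₀ := by ring
        _ ≤ Γx * g₀ := by
            apply Nat.mul_le_mul_right
            refine le_trans ?_ hΓbig
            have h2 : 8 ≤ 64 * C₁ * (r + 1) := num4 hC₁ r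
            exact Nat.mul_le_mul_right _ h2
        _ ≤ N := hg₀a
        _ ≤ _ := hn₀b
    exact Nat.le_of_mul_le_mul_left h1 (by omega)
  obtain ⟨G, hGsub, hGcard, ℓ, hℓ, hflow, hi, wi, hRccard, hhi, hwi⟩ :=
    hchoice G₀ g₀ (hg₀n.trans hG₀card)
  -- the cut set
  let Rw : Finset (Fin C.size) := (Rc : Finset (Fin C.size)).filter fun v => ℓ v ≠ 0
  let R : Finset (Fin C.size) := ({C.out} ∪ E) ∪ Rw
  have hout : C.out ∈ R := mem_union_left _ (mem_union_left _ (mem_singleton_self _))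
  have hER : E ⊆ R := fun x hx => mem_union_left _ (mem_union_right _ hx)
  have hRcR : ∀ v ∈ Rc, ℓ v ≠ 0 → v ∈ R := fun v hv h0 =>
    mem_union_right _ (mem_filter.2 ⟨hv, h0⟩)
  have hleaf := leaf_bound htime hwt hTW R hER hcut G Rc ℓ hℓ hRcR W₂ Pset
    (by
      intro v a g hs hg hbig hlow
      exact hG₀1 g (hGsub hg) v (by rw [hLc]; exact mem_filter.2 ⟨mem_univ _, hbig, hlow⟩) a hs)
    (by
      intro v a g hs hg hbig
      exact hG₀2 g (hGsub hg) v (by rw [hSm]; exact mem_filter.2 ⟨mem_univ _, hbig⟩) a hs)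
  refine ⟨G, R, hout, hER, ?_, ?_, ?_, ?_⟩
  · -- the live wires
    have hin : ∑ g ∈ G, inFan C g ≤ r * g₀ := by
      calc ∑ g ∈ G, inFan C g ≤ ∑ _g ∈ G, r := sum_le_sum fun g hg => hG₀in g (hGsub hg)
        _ = r * g₀ := by rw [sum_const, smul_eq_mul, hGcard, mul_comm]
    have hin' : inWires (midC C (MidK C time wt A T W Q) (KeepK C E time wt A T W Q)) G ≤
        r * g₀ := by
      rw [inWires_eq]
      exact (sum_le_sum fun g _ => midC_inFan_le C _ _ g).trans hin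
    have hsmall := small_wt (time := time) (wt := wt) (A := A) (T := T) (W := W) (Q := Q)
      W₂ hW1 hf3 hTW Pset
    have hsm : 8 * C₁ * (3 * Pset.card * W₂) ≤ N := by
      calc 8 * C₁ * (3 * Pset.card * W₂) = (24 * C₁ * Pset.card) * W₂ := by ring
        _ ≤ (24 * C₁ * r) * W₂ := by gcongr
        _ = w₂ * W₂ := by rw [hw₂]
        _ ≤ N := hf1
    have hfl : 64 * C₁ * (r * g₀ * (2 * x) ^ h) ≤ N := by
      calc 64 * C₁ * (r * g₀ * (2 * x) ^ h) = (64 * C₁ * r * 1 * (2 * x) ^ h) * g₀ := by ring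
        _ ≤ (64 * C₁ * (r + 1) * B * (2 * x) ^ h) * g₀ := by gcongr; omega
        _ = Γx * g₀ := by rw [hΓx']
        _ ≤ N := hg₀a
    have hrg : 64 * C₁ * (r * g₀) ≤ N := by
      refine le_trans ?_ hfl
      apply Nat.mul_le_mul_left
      exact Nat.le_mul_of_pos_right _ hpow1
    obtain ⟨wU, hwU⟩ : ∃ wU, wU = ∑ v ∈ univ.filter (fun v => BigP time A T Q v ∧
      Upper time wt A T W v), wt v := ⟨_, rfl⟩
    obtain ⟨wS, hwS⟩ : ∃ wS, wS = ∑ v ∈ univ.filter (fun v => ¬ BigP time A T Q v ∧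
        ∃ j, Same time A T j v ∧ cumL time wt (time j) / W₂ ∈ Pset), wt v := ⟨_, rfl⟩
    rw [← hwU] at hup
    rw [← hwS] at hsmall
    have hflow' := hflow.trans (Nat.mul_le_mul_right _ hin')
    have hleaf' : (leafWires C G R).card ≤ r * g₀ + (3 * wU + wS + r * g₀ * (2 * x) ^ h) := by
      rw [hwU, hwS]
      refine hleaf.trans (Nat.add_le_add hin ?_)
      exact Nat.add_le_add_left hflow' _
    have h1 : C₁ * (leafWires C G R).card ≤
        C₁ * (r * g₀ + (3 * wU + 3 * Pset.card * W₂ + r * g₀ * (2 * x) ^ h)) := by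
      apply Nat.mul_le_mul_left
      omega
    have h2 : 64 * (C₁ * (r * g₀ + (3 * wU + 3 * Pset.card * W₂ + r * g₀ * (2 * x) ^ h))) =
        64 * C₁ * (r * g₀) + 8 * (24 * C₁ * wU) + 8 * (8 * C₁ * (3 * Pset.card * W₂)) +
        64 * C₁ * (r * g₀ * (2 * x) ^ h) := by ring
    omega
  · -- the cut set is small
    rw [hGcard]
    have hsmall : ∀ X : ℕ, (Z + 1) * X ≤ N → 8 * C₁ * X ≤ g₀ := by
      intro X hX
      have h1 : (2 * Γx) * (8 * C₁ * X) ≤ (2 * Γx) * g₀ := by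
        calc (2 * Γx) * (8 * C₁ * X) = (16 * C₁ * Γx) * X := by ring
          _ ≤ (Z + 1) * X := Nat.mul_le_mul_right _ (by omega)
          _ ≤ N := hX
          _ ≤ 2 * Γx * g₀ := hg₀b
      exact Nat.le_of_mul_le_mul_left h1 (by omega)
    have hhis : 8 * C₁ * hi ≤ g₀ := by
      have h1 : (2 * c * Γx) * (8 * C₁ * hi) ≤ (2 * c * Γx) * g₀ := by
        calc (2 * c * Γx) * (8 * C₁ * hi) = (16 * C₁ * c * Γx) * hi := by ring
          _ = (16 * C₁ * c * Γ x) * hi := by rw [hΓx]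
          _ ≤ y * hi := Nat.mul_le_mul_right _ hΦ
          _ ≤ c * N := hhi
          _ ≤ c * (2 * Γx * g₀) := Nat.mul_le_mul_left _ hg₀b
          _ = (2 * c * Γx) * g₀ := by ring
      exact Nat.le_of_mul_le_mul_left h1 (by positivity)
    have hwis : 8 * C₁ * wi ≤ g₀ := by
      have h1 : (8 * B * (h + 1) * n₀) * (8 * C₁ * wi) ≤ (8 * B * (h + 1) * n₀) * g₀ := by
        calc (8 * B * (h + 1) * n₀) * (8 * C₁ * wi)
            = (64 * C₁ * B * (h + 1)) * (n₀ * wi) := by ring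
          _ ≤ (64 * C₁ * B * (h + 1)) * (G₀.card * wi) := by gcongr
          _ = ee * (G₀.card * wi) := by rw [hee]
          _ ≤ 2 * g₀ * (h * N) := hwi
          _ ≤ 2 * g₀ * ((h + 1) * (4 * B * n₀)) := by
              gcongr
              omega
          _ = (8 * B * (h + 1) * n₀) * g₀ := by ring
      exact Nat.le_of_mul_le_mul_left h1 (by positivity)
    have hlogs : 8 * C₁ * (Nat.log 2 N + 3) ≤ g₀ := by
      apply hsmall
      apply log_small _ (by omega)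
      omega
    have hRcard : (R \ E).card ≤ 1 + (1 + hi + wi) := by
      have h1 : R \ E ⊆ {C.out} ∪ Rw := by
        intro v hv
        rw [mem_sdiff] at hv
        rcases mem_union.1 hv.1 with h2 | h2
        · rcases mem_union.1 h2 with h3 | h3
          · exact mem_union_left _ h3
          · exact absurd h3 hv.2
        · exact mem_union_right _ h2
      refine (card_le_card h1).trans ((card_union_le _ _).trans (Nat.add_le_add ?_ hRccard))
      rw [card_singleton]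
    have h1 : 8 * (C₁ * ((R \ E).card + Nat.log 2 N + 1)) ≤
        8 * C₁ * hi + 8 * C₁ * wi + 8 * C₁ * (Nat.log 2 N + 3) := by
      calc 8 * (C₁ * ((R \ E).card + Nat.log 2 N + 1)) ≤
          8 * (C₁ * ((1 + (1 + hi + wi)) + Nat.log 2 N + 1)) := by gcongr
        _ = _ := by ring
    omega
  · rw [hGcard]
    calc C₁ * g₀ ≤ Γx * g₀ := by
          apply Nat.mul_le_mul_right
          refine le_trans ?_ hΓbig
          calc C₁ ≤ 64 * C₁ := by omega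
            _ ≤ 64 * C₁ * ((r + 1) * B) := Nat.le_mul_of_pos_right _ (by positivity)
            _ = 64 * C₁ * (r + 1) * B := by ring
      _ ≤ N := hg₀a
  · rw [hGcard]
    refine hg₀b.trans (Nat.mul_le_mul_right _ ?_)
    have : Γx ≤ 16 * C₁ * Γx := Nat.le_mul_of_pos_left _ (by omega)
    omega

end Pool.Agent.Y633.GenK
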