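import Mathlib
import Pool.Agent.Y633.GenK.Core

/-! # The combinatorial theorem with general costs of the cuts -/

open Finset

set_option linter.unusedSectionVars false

namespace Pool.Agent.Y633.GenK

open Pool.Agent.Y633.Dep Pool.Agent.Y633.Wire Pool.Agent.Y633.Gen Pool.Agent.Y633.Lay

section

variable {n q : ℕ} {C : Circuit n q} {E : Finset (Fin C.size)} {time wt : Fin C.size → ℕ}
  {A : Finset ℕ} {T : ℕ → ℕ} {W Q : ℕ} {κ : ℕ → ℕ}

lemma chain_mid : ∀ (l : List (Fin C.size)) (w : Fin C.size),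
    (l ++ [w]).IsChain (fun j i => ∃ a, C.src i a = Sum.inr j ∧ KeepK C E time wt A T W Q j i) →
    ∀ v ∈ l, v ∉ E ∧ MidK C time wt A T W Q v := by
  intro l
  induction l with
  | nil => intro w _ v hv; simp at hv
  | cons u l ih =>
    intro w h v hv
    rw [List.mem_cons] at hv
    have h2 : (l ++ [w]).IsChain
        (fun j i => ∃ a, C.src i a = Sum.inr j ∧ KeepK C E time wt A T W Q j i) := by
      rw [List.cons_append, List.isChain_cons] at h
      exact h.2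
    rcases hv with rfl | hv
    · cases l with
      | nil =>
        rw [List.cons_append, List.nil_append, List.isChain_cons_cons] at h
        obtain ⟨⟨a, _, hk⟩, _⟩ := h
        exact ⟨hk.1, hk.2.1⟩
      | cons u' l =>
        rw [List.cons_append, List.cons_append, List.isChain_cons_cons] at h
        obtain ⟨⟨a, _, hk⟩, _⟩ := h
        exact ⟨hk.1, hk.2.1⟩
    · exact ih w h2 v hv

lemma chain_same : ∀ (l : List (Fin C.size)) (w : Fin C.size),
    (w :: l).IsChain (fun j i => ∃ a, C.src i a = Sum.inr j ∧ KeepK C E time wt A T W Q j i) →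
    ∀ v ∈ w :: l, Same time A T w v := by
  intro l
  induction l with
  | nil =>
    intro w _ v hv
    rw [List.mem_singleton] at hv
    rw [hv]
    exact fun β _ => Iff.rfl
  | cons u l ih =>
    intro w h v hv
    rw [List.mem_cons] at hv
    rw [List.isChain_cons_cons] at h
    obtain ⟨⟨a, _, hk⟩, h2⟩ := h
    rcases hv with rfl | hv
    · exact fun β _ => Iff.rfl
    · exact hk.2.2.2.trans (ih u h2 v hv)

/-- In the circuit of the kept wires the depth of sharing is bounded. -/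
lemma midC_sharing (N D h : ℕ)
    (hT : ∀ β ∈ A, cumW time wt (T β) / W = β)
    (hthin : ∀ τ, D * κ τ ≤ N → cumW time wt τ / W ∈ A)
    (hpath : ∀ l : List (Fin C.size), l.IsChain (fun u v => ∃ a, C.src v a = Sum.inr u) →
      (∀ v ∈ l, v ∉ E) → h < l.countP (fun v => 2 ≤ C.fanOut v) →
      ∃ u ∈ l, ∃ v ∈ l, ∃ τ, time u ≤ τ ∧ τ < time v ∧ D * κ τ ≤ N) :
    (midC C (MidK C time wt A T W Q) (KeepK C E time wt A T W Q)).SharingDepthLE ∅ (h + 1) := by
  intro l hl _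
  have hl' : (l : List (Fin C.size)).IsChain
      (fun j i => ∃ a, C.src i a = Sum.inr j ∧ KeepK C E time wt A T W Q j i) := by
    refine List.IsChain.imp ?_ hl
    rintro j i ⟨a, ha⟩
    exact ⟨a, (midC_inr C _ _ i a j).1 ha⟩
  rcases List.eq_nil_or_concat' l with rfl | ⟨l', w, rfl⟩
  · simp
  · rw [List.countP_append]
    have h1 : List.countP (fun j => decide (2 ≤
        (midC C (MidK C time wt A T W Q) (KeepK C E time wt A T W Q)).fanOut j)) [w] ≤ 1 := by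
      exact (List.countP_le_length).trans (by simp)
    refine Nat.add_le_add ?_ h1
    by_contra hcon
    push Not at hcon
    have hmid := chain_mid (C := C) l' w hl'
    have hchain : l'.IsChain
        (fun j i => ∃ a, C.src i a = Sum.inr j ∧ KeepK C E time wt A T W Q j i) := by
      rw [List.isChain_append] at hl'
      exact hl'.1
    have h2 : List.countP (fun j => decide (2 ≤
        (midC C (MidK C time wt A T W Q) (KeepK C E time wt A T W Q)).fanOut j)) l' ≤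
        List.countP (fun j => decide (2 ≤ C.fanOut j)) l' := by
      apply List.countP_mono_left
      intro x _ hx
      rw [decide_eq_true_eq] at hx ⊢
      exact hx.trans (midC_fanOut_le C _ _ x)
    obtain ⟨u, hu, v, hv, τ, h3, h4, h5⟩ := hpath l'
      (List.IsChain.imp (fun j i ⟨a, ha, _⟩ => ⟨a, ha⟩) hchain)
      (fun v hv => (hmid v hv).1) (lt_of_lt_of_le hcon h2)
    have hsame : Same time A T u v := by
      cases l' with
      | nil => simp at hu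
      | cons u' l' =>
        exact (chain_same (C := C) l' u' hchain u hu).symm.trans
          (chain_same (C := C) l' u' hchain v hv)
    exact mid_fat hT (hmid u hu).2.2.2 (hmid v hv).2.2.1 hsame h3 h4 (hthin τ h5)

end

/-- The circuit in which the wires that cross one of the times in `S` are disconnected, except for
those leaving gates in `E`. -/
@[reducible] noncomputable def cutC {n q : ℕ} (C : Circuit n q) (E : Finset (Fin C.size))
    (time : Fin C.size → ℕ) (S : Finset ℕ) : Circuit n 1 :=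
  midC C (fun _ => True) (fun j i => j ∈ E ∨ ∀ τ ∈ S, ¬ (time j ≤ τ ∧ τ < time i))

theorem comb_aux (c C₁ : ℕ) (d : ℕ → ℕ) (hc : 1 ≤ c) (hC₁ : 1 ≤ C₁) : ∃ m N₀ : ℕ, 1 ≤ m ∧
    ∀ N q : ℕ, N₀ ≤ N → m * q ≤ N → ∀ C : Circuit N q, C.numWires ≤ c * N →
      ∀ (E : Finset (Fin C.size)) (time : Fin C.size → ℕ) (κ : ℕ → ℕ), m * E.card ≤ N →
        (∀ i a j, C.src i a = Sum.inr j → j ∉ E → time j < time i) →
        (∀ j, 1 ≤ j → j ≤ m → ∀ l : List (Fin C.size),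
          l.IsChain (fun u v => ∃ a, C.src v a = Sum.inr u) → (∀ v ∈ l, v ∉ E) →
          d j < l.countP (fun v => 2 ≤ C.fanOut v) → ∃ u ∈ l, ∃ v ∈ l, ∃ τ, time u ≤ τ ∧
            τ < time v ∧ j * κ τ ≤ N) →
        ∃ (G : Finset (Fin N)) (R : Finset (Fin C.size)) (S : Finset ℕ), C.out ∈ R ∧ E ⊆ R ∧
          C₁ * (leafWires (cutC C E time S) G R).card ≤ N ∧
          C₁ * (q + R.card + ∑ τ ∈ S, κ τ + Nat.log 2 N + 1) ≤ G.card ∧ C₁ * G.card ≤ N := by
  classical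
  obtain ⟨r, hr⟩ : ∃ r, r = 8 * c := ⟨_, rfl⟩
  obtain ⟨w₂, hw₂⟩ : ∃ w₂, w₂ = 24 * C₁ * r := ⟨_, rfl⟩
  obtain ⟨Q, hQ⟩ : ∃ Q, Q = 384 * C₁ * c := ⟨_, rfl⟩
  obtain ⟨b, hb⟩ : ∃ b, b = 4 * c * w₂ + 1 := ⟨_, rfl⟩
  obtain ⟨M₀, hM₀⟩ : ∃ M₀, M₀ = 8 * c * w₂ * (Q + 1) := ⟨_, rfl⟩
  obtain ⟨B, hB⟩ : ∃ B, B = 2 ^ b := ⟨_, rfl⟩
  have hr1 : 1 ≤ r := by omega
  have hw₂1 : 24 ≤ w₂ := by rw [hw₂]; exact num2 hC₁ hr1
  have hQ1 : 1 ≤ Q := by rw [hQ]; exact num3 hC₁ hc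
  choose Γ₀ NN hΓpos hcore using fun h => core c C₁ h hc hC₁ r w₂ Q b M₀ B hr hw₂ hQ hb hM₀ hB
  obtain ⟨hh, hhh⟩ : ∃ hh : ℕ → ℕ, hh = fun D => d D + 1 := ⟨_, rfl⟩
  obtain ⟨Ψ, hΨ⟩ : ∃ Ψ : ℕ → ℕ, Ψ = fun D => D + 8 * C₁ * (M₀ + 1) * Γ₀ (hh D) := ⟨_, rfl⟩
  obtain ⟨gD, hgD⟩ : ∃ gD : ℕ → ℕ, gD = fun k => Ψ^[k] 1 := ⟨_, rfl⟩
  have hgD0 : gD 0 = 1 := by rw [hgD]; rfl
  have hgDS : ∀ k, gD (k + 1) = Ψ (gD k) := by
    intro k; rw [hgD]; exact Function.iterate_succ_apply' Ψ k 1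
  have hgDle : ∀ k, gD k ≤ gD (k + 1) := by
    intro k; rw [hgDS, hΨ]; exact Nat.le_add_right _ _
  have hgDpos : ∀ k, 1 ≤ gD k := by
    intro k
    induction k with
    | zero => rw [hgD0]
    | succ k ih => exact ih.trans (hgDle k)
  obtain ⟨Z, hZ⟩ : ∃ Z, Z = ∑ k ∈ range (M₀ + 3),
    (gD k + 8 * C₁ * Γ₀ (hh (gD k)) + NN (hh (gD k))) := ⟨_, rfl⟩
  have hZk : ∀ k ≤ M₀ + 2, gD k + 8 * C₁ * Γ₀ (hh (gD k)) + NN (hh (gD k)) ≤ Z := by
    intro k hk
    rw [hZ]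
    exact single_le_sum (f := fun k => gD k + 8 * C₁ * Γ₀ (hh (gD k)) + NN (hh (gD k)))
      (fun _ _ => Nat.zero_le _) (mem_range.2 (by omega))
  refine ⟨Z + 1, Z + 2 * w₂ * (Q + 1) + 16, by omega, ?_⟩
  intro N q hN hq C hwires E time κ hE htime hpath
  obtain ⟨W₂, hW₂⟩ : ∃ W₂, W₂ = N / w₂ := ⟨_, rfl⟩
  obtain ⟨W, hW⟩ : ∃ W, W = W₂ / (Q + 1) := ⟨_, rfl⟩
  have hwQ : w₂ * (Q + 1) ≤ N := by
    have : 2 * w₂ * (Q + 1) = 2 * (w₂ * (Q + 1)) := by ring
    omega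
  have hw₂N : w₂ ≤ N := le_trans (Nat.le_mul_of_pos_right _ (by omega)) hwQ
  have hf2 : N ≤ 2 * w₂ * W₂ := by rw [hW₂]; exact half_up (by omega) hw₂N
  have hQW₂ : Q + 1 ≤ W₂ := by
    rw [hW₂, Nat.le_div_iff_mul_le (by omega)]
    calc (Q + 1) * w₂ = w₂ * (Q + 1) := mul_comm _ _
      _ ≤ N := hwQ
  have hf4 : W₂ ≤ 2 * (Q + 1) * W := by rw [hW]; exact half_up (by omega) hQW₂
  have htotal : ∑ v, wtC C v ≤ 2 * c * N := by
    refine (sum_wtC_le C).trans ?_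
    calc 2 * C.numWires ≤ 2 * (c * N) := Nat.mul_le_mul_left _ hwires
      _ = 2 * c * N := by ring
  have hcumM : ∀ τ, cumW time (wtC C) τ / W ≤ M₀ := by
    intro τ
    apply Nat.div_le_of_le_mul
    calc cumW time (wtC C) τ ≤ ∑ v, wtC C v := cumW_le_total _ _ _
      _ ≤ 2 * c * N := htotal
      _ ≤ 2 * c * (2 * w₂ * (2 * (Q + 1) * W)) := by
          apply Nat.mul_le_mul_left
          exact hf2.trans (Nat.mul_le_mul_left _ hf4)
      _ = W * M₀ := by rw [hM₀]; ring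
  -- scales
  let Ak : ℕ → Finset ℕ := fun k => (range (M₀ + 1)).filter fun β =>
    ∃ τ, gD k * κ τ ≤ N ∧ cumW time (wtC C) τ / W = β
  obtain ⟨k, hkM, hkA⟩ := exists_stationary Ak (M₀ + 1)
    ((card_filter_le _ _).trans (by simp)) (by
      intro k β hβ
      obtain ⟨h1, τ, h2, h3⟩ := mem_filter.1 hβ
      refine mem_filter.2 ⟨h1, τ, le_trans ?_ h2, h3⟩
      exact Nat.mul_le_mul_right _ (hgDle k))
  obtain ⟨A, hA⟩ : ∃ A, A = Ak k := ⟨_, rfl⟩
  have hA' : A = Ak (k + 1) := by rw [hA, hkA]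
  obtain ⟨D, hD⟩ : ∃ D, D = gD k := ⟨_, rfl⟩
  have hD1 : 1 ≤ D := by rw [hD]; exact hgDpos k
  have hexT : ∀ β, ∃ τ, β ∈ A → gD (k + 1) * κ τ ≤ N ∧ cumW time (wtC C) τ / W = β := by
    intro β
    by_cases hβ : β ∈ A
    · have h1 := hβ
      rw [hA'] at h1
      obtain ⟨_, τ, h2⟩ := mem_filter.1 h1
      exact ⟨τ, fun _ => h2⟩
    · exact ⟨0, fun h => absurd h hβ⟩
  choose T hT using hexT
  have hTW : ∀ β ∈ A, cumW time (wtC C) (T β) / W = β := fun β hβ => (hT β hβ).2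
  have hthin : ∀ τ, D * κ τ ≤ N → cumW time (wtC C) τ / W ∈ A := by
    intro τ hτ
    rw [hA]
    refine mem_filter.2 ⟨mem_range.2 ?_, τ, by rw [← hD]; exact hτ, rfl⟩
    have := hcumM τ
    omega
  have hDZ : D + 8 * C₁ * Γ₀ (hh D) + NN (hh D) ≤ Z := by rw [hD]; exact hZk k (by omega)
  have hsd : (midC (cutC C E time (A.image T)) (MidK (cutC C E time (A.image T)) time (wtC C) A T W Q)
      (KeepK (cutC C E time (A.image T)) E time (wtC C) A T W Q)).SharingDepthLE ∅ (hh D) := by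
    rw [hhh]
    refine midC_sharing (C := cutC C E time (A.image T)) (κ := κ) N D (d D) hTW hthin ?_
    intro l hl hlE hlc
    refine hpath D hD1 (by omega) l ?_ hlE (lt_of_lt_of_le hlc ?_)
    · exact List.IsChain.imp (fun u v ⟨a, ha⟩ => ⟨a, ((midC_inr C _ _ v a u).1 ha).1⟩) hl
    · apply List.countP_mono_left
      intro x _ hx
      rw [decide_eq_true_eq] at hx ⊢
      exact hx.trans (midC_fanOut_le C _ _ x)
  obtain ⟨G, R, h1, h2, h3, h4, h5, h6⟩ := hcore (hh D) N 1 (by omega) W₂ W hW₂ hW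
    (cutC C E time (A.image T)) hwires E time (wtC C) A T
    (fun v => Nat.add_le_add_left (midC_fanOut_le C _ _ v) _) htotal hTW
    (fun i a j hs hj => htime i a j ((midC_inr C _ _ i a j).1 hs).1 hj)
    (by
      intro i a j hs hj β hβ
      obtain ⟨hs1, hs2⟩ := (midC_inr C _ _ i a j).1 hs
      have hlt := htime i a j hs1 hj
      constructor
      · intro h; omega
      · intro h
        by_contra hcon
        push Not at hcon
        rcases hs2 with h2 | h2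
        · exact hj h2
        · exact h2 (T β) (mem_image_of_mem T hβ) ⟨hcon, h⟩) hsd
  refine ⟨G, R, A.image T, h1, h2, h3, ?_, h5⟩
  have hsmall : ∀ X : ℕ, (Z + 1) * X ≤ N → 8 * C₁ * X ≤ G.card := by
    intro X hX
    have e1 : Γ₀ (hh D) * (8 * C₁ * X) ≤ Γ₀ (hh D) * G.card := by
      calc Γ₀ (hh D) * (8 * C₁ * X) = (8 * C₁ * Γ₀ (hh D)) * X := by ring
        _ ≤ (Z + 1) * X := Nat.mul_le_mul_right _ (by omega)
        _ ≤ N := hX
        _ ≤ _ := h6
    exact Nat.le_of_mul_le_mul_left e1 (hΓpos _)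
  have hEs := hsmall _ hE
  have hqs := hsmall _ hq
  have hcuts : 8 * C₁ * ∑ β ∈ A, κ (T β) ≤ G.card := by
    have hAcard : A.card ≤ M₀ + 1 := by
      rw [hA]
      exact (card_filter_le _ _).trans (by simp)
    have e1 : ∀ β ∈ A, 8 * C₁ * (M₀ + 1) * κ (T β) ≤ G.card := by
      intro β hβ
      have e2 := (hT β hβ).1
      rw [hgDS, hΨ, ← hD] at e2
      have e3 : Γ₀ (hh D) * (8 * C₁ * (M₀ + 1) * κ (T β)) ≤ Γ₀ (hh D) * G.card := by
        calc Γ₀ (hh D) * (8 * C₁ * (M₀ + 1) * κ (T β))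
            = (8 * C₁ * (M₀ + 1) * Γ₀ (hh D)) * κ (T β) := by ring
          _ ≤ (D + 8 * C₁ * (M₀ + 1) * Γ₀ (hh D)) * κ (T β) :=
              Nat.mul_le_mul_right _ (Nat.le_add_left _ _)
          _ ≤ N := e2
          _ ≤ _ := h6
      exact Nat.le_of_mul_le_mul_left e3 (hΓpos _)
    have e4 : (M₀ + 1) * (8 * C₁ * ∑ β ∈ A, κ (T β)) ≤ (M₀ + 1) * G.card := by
      calc (M₀ + 1) * (8 * C₁ * ∑ β ∈ A, κ (T β))
          = ∑ β ∈ A, 8 * C₁ * (M₀ + 1) * κ (T β) := by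
            rw [← mul_sum]; ring
        _ ≤ ∑ _β ∈ A, G.card := sum_le_sum e1
        _ = A.card * G.card := by rw [sum_const, smul_eq_mul]
        _ ≤ (M₀ + 1) * G.card := Nat.mul_le_mul_right _ hAcard
    exact Nat.le_of_mul_le_mul_left e4 (by omega)
  have himg : ∑ τ ∈ A.image T, κ τ ≤ ∑ β ∈ A, κ (T β) := by
    have : A.image T = A.biUnion fun β => {T β} := by
      ext x; simp [eq_comm]
    rw [this]
    refine (sum_biUnion_le' _ _ _).trans (le_of_eq ?_)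
    apply sum_congr rfl
    intro β _
    rw [sum_singleton]
  have hRc : R.card ≤ E.card + (R \ E).card := by
    have := card_sdiff_add_card_eq_card (s := E) (t := R) h2
    omega
  have e5 : 8 * (C₁ * (q + R.card + ∑ τ ∈ A.image T, κ τ + Nat.log 2 N + 1)) ≤
      8 * C₁ * q + 8 * C₁ * E.card + 8 * C₁ * ∑ β ∈ A, κ (T β) +
        4 * (2 * (C₁ * ((R \ E).card + Nat.log 2 N + 1))) := by
    calc 8 * (C₁ * (q + R.card + ∑ τ ∈ A.image T, κ τ + Nat.log 2 N + 1)) ≤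
        8 * (C₁ * (q + (E.card + (R \ E).card) + ∑ β ∈ A, κ (T β) + Nat.log 2 N + 1)) := by
          gcongr
      _ = _ := by ring
  omega

theorem comb (c C₁ : ℕ) (d : ℕ → ℕ) : ∃ m N₀ : ℕ, 1 ≤ m ∧
    ∀ N q : ℕ, N₀ ≤ N → m * q ≤ N → ∀ C : Circuit N q, C.numWires ≤ c * N →
      ∀ (E : Finset (Fin C.size)) (time : Fin C.size → ℕ) (κ : ℕ → ℕ), m * E.card ≤ N →
        (∀ i a j, C.src i a = Sum.inr j → j ∉ E → time j < time i) →
        (∀ j, 1 ≤ j → j ≤ m → ∀ l : List (Fin C.size),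
          l.IsChain (fun u v => ∃ a, C.src v a = Sum.inr u) → (∀ v ∈ l, v ∉ E) →
          d j < l.countP (fun v => 2 ≤ C.fanOut v) → ∃ u ∈ l, ∃ v ∈ l, ∃ τ, time u ≤ τ ∧
            τ < time v ∧ j * κ τ ≤ N) →
        ∃ (G : Finset (Fin N)) (R : Finset (Fin C.size)) (S : Finset ℕ), C.out ∈ R ∧ E ⊆ R ∧
          C₁ * (leafWires (cutC C E time S) G R).card ≤ N ∧
          C₁ * (q + R.card + ∑ τ ∈ S, κ τ + Nat.log 2 N + 1) ≤ G.card ∧ C₁ * G.card ≤ N := by
  obtain ⟨m, N₀, hm, h⟩ := comb_aux (c + 1) (C₁ + 1) d (by omega) (by omega)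
  refine ⟨m, N₀, hm, ?_⟩
  intro N q hN hq C hwires E time κ hE htime hpath
  obtain ⟨G, R, S, h1, h2, h3, h4, h5⟩ := h N q hN hq C
    (hwires.trans (Nat.mul_le_mul_right _ (Nat.le_succ c))) E time κ hE htime hpath
  have hC : C₁ ≤ C₁ + 1 := Nat.le_succ C₁
  exact ⟨G, R, S, h1, h2, (Nat.mul_le_mul_right _ hC).trans h3,
    (Nat.mul_le_mul_right _ hC).trans h4, (Nat.mul_le_mul_right _ hC).trans h5⟩

end Pool.Agent.Y633.GenK
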